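import Mathlib
import Pool.Agent.Helper78_ACIT.Circuit
import Pool.Agent.Helper78_ACIT.Prime
import Pool.Agent.Helper99_RS.Fin
import Pool.Agent.Helper82_PW.All
import Pool.Agent.Helper82_PW.Hit
import Pool.Agent.Helper82_PW.Exa

set_option autoImplicit false

/-!
# `MP_b2b50d_lc`: polynomial-size hitting sets for sums of `k` products of sums of univariates

For all fixed `k` and `c` the generator `x_i = ∑ j < t, z_j ∏ l < n, l ≠ i, (w_j - l)` (`i < n`) with
a constant number `t` of blocks hits all nonzero sums of `k` products of (any number of) polynomials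
`h + g_0(x_0) + ... + g_(n-1)(x_(n-1))` of any degree, where `h` depends on at most `c` variables and
the `g_i` are univariate, over fields of characteristic zero (depth-4 circuits with powering gates at
the bottom, top fan-in `k`).  More generally it hits all nonzero polynomials `C(T_1, ..., T_m)` with an
arbitrary polynomial `C` and clusters `T_i = f_1 ... f_N (a_1 / b_1 + ... + a_M / b_M)` of such
polynomials `f_v` (`N` and `M` are arbitrary, `b_t` is a product of `c` such polynomials, all monomials
of `a_t` have at most `c` variables; `M = 1`, `a_1 = b_1 = 1`: a product), at most `k` of which are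
algebraically independent.  Hence these circuits, and all circuits of any shape which compute a
divisor of a product of such polynomials, have a deterministic black-box identity test with
polynomially many evaluations modulo small primes.
-/

namespace Pool.Agent.Results.MP_b2b50d_lc.SumsOfUnivariates

open MvPolynomial Pool.Agent.Helper78_ACIT Pool.Agent.UO

/-- `f = h + g_0(x_0) + ... + g_(n-1)(x_(n-1))`, where `h` depends on at most `c` of the variables
`x_0, ..., x_(n-1)` (the degrees are arbitrary). -/
def IsForm (E : Type) [Field E] (c n : ℕ) (f : MvPolynomial ℕ E) : Prop :=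
  ∃ (h : MvPolynomial ℕ E) (g : ℕ → Polynomial E), h.vars.card ≤ c ∧ h.vars ⊆ Finset.range n ∧
    f = h + ∑ i ∈ Finset.range n, Polynomial.aeval (X i) (g i)

/-- A cluster `T = f_1 ... f_N (a_1 / b_1 + ... + a_M / b_M)` with arbitrary `N`, `M`, polynomials `f_v`
of the form `IsForm E c n`, products `b_t = b_t1 ... b_tc` of nonzero polynomials of this form, and
polynomials `a_t` in `x_0, ..., x_(n-1)` all of whose monomials have at most `c` variables (the
equation is multiplied by `b_1 ... b_M`). -/
def IsCluster (E : Type) [Field E] (c n : ℕ) (T : MvPolynomial ℕ E) : Prop :=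
  ∃ (N M : ℕ) (f : Fin N → MvPolynomial ℕ E) (a : Fin M → MvPolynomial ℕ E)
    (b : Fin M → Fin c → MvPolynomial ℕ E),
    (∀ v, IsForm E c n (f v)) ∧
    (∀ t, (a t).vars ⊆ Finset.range n ∧ ∀ s ∈ (a t).support, s.support.card ≤ c) ∧
    (∀ t l, IsForm E c n (b t l) ∧ b t l ≠ 0) ∧
    T * ∏ t, ∏ l, b t l = (∏ v, f v) * ∑ t, a t * ∏ t' ∈ Finset.univ.erase t, ∏ l, b t' l

/-- `F = C(T_1, ..., T_m)` with an arbitrary polynomial `C` and clusters `T_i`; every algebraically
independent subfamily of the `T_i` has at most `k` members (for example `m ≤ k`). -/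
def IsComp (E : Type) [Field E] (k c n : ℕ) (F : MvPolynomial ℕ E) : Prop :=
  ∃ (m : ℕ) (T : Fin m → MvPolynomial ℕ E) (C : MvPolynomial (Fin m) E),
    (∀ i, IsCluster E c n (T i)) ∧
    (∀ s : Finset (Fin m), AlgebraicIndependent E (fun i : s => T i) → s.card ≤ k) ∧
    F = aeval T C

/-- The value of the circuit `G` in `ZMod p` at the point `x_i = ∑ j, z_j ∏ l < n, l ≠ i, (w_j - l)`
(`i < n`; `x_i = 0` for `i ≥ n`). -/
def testValue (n p N t : ℕ) (w z : Fin t → Fin N) (G : List Gate) : ZMod p :=
  out (point n (fun j => ((w j : ℕ) : ZMod p)) (fun j => ((z j : ℕ) : ZMod p))) G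

/-- For all `k` and `c` there is a number `t0` such that for all fields `E` of characteristic zero,
all `n` and all `t ≥ t0`:
(1) For all `F_1, ..., F_r` of the class `IsComp E k c n` with nonzero product there are `w`, `z` in
`E ^ t` such that `F_1 ... F_r` does not vanish at the point
`x_i = ∑ j < t, z_j ∏ l < n, l ≠ i, (w_j - l)`.
(2) Let the polynomial of the well-formed circuit `G` be zero, or let it have degree at most `D` and
length at most `2 ^ b` and divide a nonzero product of polynomials of the class.  Then `G` computes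
zero if and only if its values at the points `x_i = ∑ j < t, z_j ∏ l < n, l ≠ i, (w_j - l)`, with
`w_j` and `z_j` in `{0, ..., n D}`, are zero modulo all primes
`p ≤ 64 (b + D (t + n ^ 2 (D + 1)) + 1) ^ 2`.
(3) Sums of `k` products of polynomials of the form `IsForm E c n` belong to the class.
(4) The sums `∑ i < k, ∑ u < M_i, a_iu ∏ v ∉ V_iu, f_iv` with `f_iv` of the form `IsForm E c n`, at most
`c` elements in `V_iu`, and polynomials `a_iu` in `x_0, ..., x_(n-1)` all of whose monomials have at
most `c` variables, belong to the class. -/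
theorem result (k c : ℕ) : ∃ t0 : ℕ, ∀ (E : Type) [Field E] [CharZero E] (n t : ℕ), t0 ≤ t →
    (∀ S : List (MvPolynomial ℕ E), (∀ F ∈ S, IsComp E k c n F) → S.prod ≠ 0 →
      ∃ w z : Fin t → E, eval (point n w z) S.prod ≠ 0) ∧
    (∀ (D b : ℕ) (G : List Gate), WellFormed G →
      (poly G = 0 ∨ ((poly G).totalDegree ≤ D ∧ length (poly G) ≤ 2 ^ b ∧
        ∃ S : List (MvPolynomial ℕ E), (∀ F ∈ S, IsComp E k c n F) ∧ S.prod ≠ 0 ∧
          map (Int.castRingHom E) (poly G) ∣ S.prod)) →
      (G ∈ ACIT ↔ ∀ p, p.Prime → p ≤ 64 * (b + D * (t + n * (n * (D + 1))) + 1) ^ 2 →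
        ∀ w z : Fin t → Fin (n * D + 1), testValue n p (n * D + 1) t w z G = 0)) ∧
    (∀ (e : Fin k → E) (N : Fin k → ℕ) (f : ∀ i : Fin k, Fin (N i) → MvPolynomial ℕ E),
      (∀ i v, IsForm E c n (f i v)) →
      IsComp E k c n (∑ i, C (e i) * ∏ v, f i v)) ∧
    ∀ (N M : Fin k → ℕ) (f : ∀ i : Fin k, Fin (N i) → MvPolynomial ℕ E)
        (V : ∀ i : Fin k, Fin (M i) → Finset (Fin (N i)))
        (a : ∀ i : Fin k, Fin (M i) → MvPolynomial ℕ E),
        (∀ i v, IsForm E c n (f i v)) →
        (∀ i u, (V i u).card ≤ c) →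
        (∀ i u, (a i u).vars ⊆ Finset.range n ∧ ∀ s ∈ (a i u).support, s.support.card ≤ c) →
        IsComp E k c n (∑ i, ∑ u, a i u * ∏ v ∈ (V i u)ᶜ, f i v) := by
  obtain ⟨t0, ht0⟩ := PW.H82.hit PW.aThp PW.aGnf PW.aDer k c
  refine ⟨t0, fun E _ _ n t ht => ?_⟩
  have h1 : ∀ S : List (MvPolynomial ℕ E), (∀ F ∈ S, IsComp E k c n F) → S.prod ≠ 0 →
      ∃ w z : Fin t → E, eval (point n w z) S.prod ≠ 0 := fun S hS hne =>
    RS.H82J.prd n t (IsComp E k c n) (fun F hF hF0 => ht0 E n t ht F hF hF0) S hS hne
  refine ⟨h1, ?_, fun e N f hf => PW.H82.pc_sum k c n e N f hf,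
    fun N M f V a hf hV ha => PW.H82.pc_near k c n N M f V a hf hV ha⟩
  intro D b G hG hpoly
  exact RS.H99.test E n t (IsComp E k c n) h1 D b G hG hpoly

end Pool.Agent.Results.MP_b2b50d_lc.SumsOfUnivariates
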